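import Mathlib
import Pool.Agent.H27.Broken

set_option autoImplicit false

namespace Pool.Agent.Results.MP_8df504_an.ManyValues

open Set Filter Topology MeasureTheory Pool.Agent.H27.Broken

/-- A broken-linear transformation of `[0,1]`: continuous, into `[0,1]`, and affine on each piece
of a finite partition `0 = a_0 < ... < a_m = 1`. -/
def BrokenLinear (T : ℝ → ℝ) : Prop :=
  ContinuousOn T (Icc 0 1) ∧ MapsTo T (Icc 0 1) (Icc 0 1) ∧
    ∃ (m : ℕ) (a : Fin (m + 1) → ℝ), StrictMono a ∧ a 0 = 0 ∧ a (Fin.last m) = 1 ∧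
      ∀ j : Fin m, ∃ c d : ℝ, ∀ x ∈ Icc (a j.castSucc) (a j.succ), T x = c * x + d

/-- The proportion of the iterates `T p, ..., T^N p` that lie in `R`. -/
noncomputable def A (T : ℝ → ℝ) (R : Set ℝ) (p : ℝ) (N : ℕ) : ℝ :=
  (1 / (N : ℝ)) * ∑ i ∈ Finset.range N, R.indicator (fun _ => (1 : ℝ)) (T^[i + 1] p)

theorem result : ∃ (T : ℝ → ℝ) (R : Set ℝ), BrokenLinear T ∧ BijOn T (Icc 0 1) (Icc 0 1) ∧
    MeasurableSet R ∧ R ⊆ Icc 0 1 ∧
    (∀ p ∈ Ioo (0 : ℝ) 1, ∃ L : ℝ, Tendsto (A T R p) atTop (𝓝 L)) ∧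
    ∀ E : Set ℝ, E ⊆ Icc 0 1 → volume (Icc 0 1 \ E) = 0 →
      {L : ℝ | ∃ p ∈ E, Tendsto (A T R p) atTop (𝓝 L)}.Infinite := by
  classical
  let κ : ℝ → ℕ := fun x => ⌊(Int.fract (lg x))⁻¹⌋₊ + 1
  have hκ : Measurable κ := (lg_meas.fract.inv.nat_floor).add_const 1
  let R : Set ℝ := Ioc 0 1 ∩ (fun x => (κ x, ⌊lg x⌋₊)) ⁻¹' {e | e.1 ∣ e.2}
  have main : ∀ (p : ℝ) (n : ℕ), 0 < T^[n] p → T^[n] p ≤ 2 / 3 →
      Tendsto (A T R p) atTop (𝓝 (1 / (κ (T^[n] p) : ℝ))) := by
    intro p n h0 h1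
    refine periodic_density (fun i => R.indicator (fun _ => (1 : ℝ)) (T^[i + 1] p)) n
      ⌊lg (T^[n] p)⌋₊ _ (Nat.succ_pos _) fun j => ?_
    have h2 : T^[n + j + 1] p = T^[n] p / 2 ^ (j + 1) := by
      rw [← iter_left h0 h1, ← Function.iterate_add_apply]; congr 1; ring
    have h3 : κ (T^[n] p / 2 ^ (j + 1)) = κ (T^[n] p) := by
      simp only [κ]; rw [lg_div h0, Int.fract_add_natCast]
    have h4 : ⌊lg (T^[n] p / 2 ^ (j + 1))⌋₊ = ⌊lg (T^[n] p)⌋₊ + j + 1 := by
      rw [lg_div h0, Nat.floor_add_natCast (lg_nonneg h0 (by linarith)), add_assoc]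
    beta_reduce
    rw [h2, indicator_apply]
    simp only [R, mem_inter_iff, div_mem h0 h1 (j + 1), true_and, mem_preimage, mem_setOf_eq,
      h3, h4]
  refine ⟨T, R, ⟨T_cont.continuousOn, T_bij.mapsTo, T_pieces⟩, T_bij,
    measurableSet_Ioc.inter ((hκ.prodMk lg_meas.nat_floor) (MeasurableSet.of_discrete)),
    inter_subset_left.trans Ioc_subset_Icc_self, fun p hp => ?_, fun E _ hE => ?_⟩
  · obtain ⟨n, h0, h1⟩ := exists_enter hp.1 hp.2
    exact ⟨_, main p n h0 h1⟩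
  · refine infinite_of_injective_forall_mem (f := fun k : ℕ => 1 / ((k : ℝ) + 2)) ?_ fun k => ?_
    · intro a b hab
      simp only [one_div, inv_inj, add_left_inj, Nat.cast_inj] at hab
      exact hab
    · have hk : (0 : ℝ) ≤ k := by positivity
      have a1 : 1 / ((k : ℝ) + 2) < 1 / ((k : ℝ) + 1) :=
        one_div_lt_one_div_of_lt (by linarith) (by linarith)
      have a2 : 0 < 1 / ((k : ℝ) + 2) := by positivity
      have a3 : 1 / ((k : ℝ) + 1) ≤ 1 := by rw [div_le_one (by linarith)]; linarith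
      have hlt : (2 : ℝ) ^ (-(1 + 1 / ((k : ℝ) + 1))) < (2 : ℝ) ^ (-(1 + 1 / ((k : ℝ) + 2))) :=
        Real.rpow_lt_rpow_of_exponent_lt one_lt_two (by linarith)
      have hup : (2 : ℝ) ^ (-(1 + 1 / ((k : ℝ) + 2))) ≤ 1 / 2 := by
        have := Real.rpow_le_rpow_of_exponent_le (x := 2) one_le_two
          (show -(1 + 1 / ((k : ℝ) + 2)) ≤ -1 by linarith)
        rwa [Real.rpow_neg_one, ← one_div] at this
      obtain ⟨p, hp, hpE⟩ : ∃ p ∈ Ioo ((2 : ℝ) ^ (-(1 + 1 / ((k : ℝ) + 1))))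
          ((2 : ℝ) ^ (-(1 + 1 / ((k : ℝ) + 2)))), p ∈ E := by
        by_contra hcon
        push Not at hcon
        have h1 := measure_mono_null (fun p hp => (⟨⟨(lt_trans (by positivity) hp.1).le,
          by linarith [hp.2]⟩, hcon p hp⟩ : p ∈ Icc (0 : ℝ) 1 \ E)) hE
        rw [Real.volume_Ioo, ENNReal.ofReal_eq_zero] at h1
        linarith
      have h0 : 0 < p := lt_trans (by positivity) hp.1
      have h1 := main p 0 h0 (by simp only [Function.iterate_zero, id]; linarith [hp.2])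
      obtain ⟨b1, b2⟩ := lg_mem hp.1 hp.2
      have h2 : Int.fract (lg p) = lg p - 1 := by
        rw [Int.fract_eq_iff]
        exact ⟨by linarith, by linarith, 1, by simp⟩
      have h3 : κ p = k + 2 := by
        simp only [κ]
        rw [h2, add_left_inj (a := 1) (c := k + 1), Nat.floor_eq_iff (by
          exact inv_nonneg.2 (by linarith))]
        push_cast
        constructor
        · rw [le_inv_comm₀ (by linarith) (by linarith), ← one_div]; linarith
        · rw [inv_lt_comm₀ (by linarith) (by linarith), ← one_div]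
          have : (k : ℝ) + 1 + 1 = k + 2 := by ring
          rw [this]; linarith
      refine ⟨p, hpE, ?_⟩
      simp only [Function.iterate_zero, id, h3] at h1
      exact_mod_cast h1

end Pool.Agent.Results.MP_8df504_an.ManyValues
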