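import Mathlib
import Pool.Agent.H27.Broken

set_option autoImplicit false

namespace Pool.Agent.Results.MP_8df504_an.NoLimit

open Set Filter Topology MeasureTheory Pool.Agent.H27.Broken

/-- A broken-linear transformation of `[0,1]`: continuous, into `[0,1]`, and affine on each piece
of a finite partition `0 = a_0 < ... < a_m = 1`. -/
def BrokenLinear (T : ℝ → ℝ) : Prop :=
  ContinuousOn T (Icc 0 1) ∧ MapsTo T (Icc 0 1) (Icc 0 1) ∧
    ∃ (m : ℕ) (a : Fin (m + 1) → ℝ), StrictMono a ∧ a 0 = 0 ∧ a (Fin.last m) = 1 ∧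
      ∀ j : Fin m, ∃ c d : ℝ, ∀ x ∈ Icc (a j.castSucc) (a j.succ), T x = c * x + d

/-- The proportion of the iterates `T p, ..., T^N p` that lie in `R`. -/
noncomputable def A (T : ℝ → ℝ) (R : Set ℝ) (p : ℝ) (N : ℕ) : ℝ :=
  (1 / (N : ℝ)) * ∑ i ∈ Finset.range N, R.indicator (fun _ => (1 : ℝ)) (T^[i + 1] p)

theorem result : ∃ (T : ℝ → ℝ) (R : Set ℝ), BrokenLinear T ∧ BijOn T (Icc 0 1) (Icc 0 1) ∧
    MeasurableSet R ∧ R ⊆ Icc 0 1 ∧
    ∀ p ∈ Ioo (1 / 4 : ℝ) (1 / 2), ¬ ∃ L : ℝ, Tendsto (A T R p) atTop (𝓝 L) := by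
  classical
  refine ⟨T, Ioc 0 1 ∩ (fun x => ⌊lg x⌋₊) ⁻¹' {e | Even (Nat.log 2 (e - 2))},
    ⟨T_cont.continuousOn, T_bij.mapsTo, T_pieces⟩, T_bij,
    measurableSet_Ioc.inter (lg_meas.nat_floor (MeasurableSet.of_discrete)),
    inter_subset_left.trans Ioc_subset_Icc_self, fun p hp h => no_density ?_⟩
  have h0 : 0 < p := by linarith [hp.1]
  have h1 : p ≤ 2 / 3 := by linarith [hp.2]
  have h2 := lg_mem (p := p) (a := 1) (b := 2)
    (by rw [Real.rpow_neg two_pos.le, Real.rpow_two]; norm_num; linarith [hp.1])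
    (by rw [Real.rpow_neg two_pos.le, Real.rpow_one]; norm_num; linarith [hp.2])
  have h3 : ⌊lg p⌋₊ = 1 := by
    rw [Nat.floor_eq_iff (by linarith)]; norm_num; constructor <;> linarith
  convert h using 3
  ext N
  unfold A
  congr 1
  refine Finset.sum_congr rfl fun i _ => ?_
  rw [iter_left h0 h1, indicator_apply]
  have h4 : ⌊lg (p / 2 ^ (i + 1))⌋₊ - 2 = i := by
    rw [lg_div h0, Nat.floor_add_natCast (by linarith), h3]; omega
  simp only [mem_inter_iff, div_mem h0 h1 (i + 1), true_and, mem_preimage, mem_setOf_eq, h4]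

end Pool.Agent.Results.MP_8df504_an.NoLimit
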